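import Mathlib

/-!
# Aggregation queries on R-trees cost `Ω(N / B)` in the worst case

Place `N` disjoint unit cubes in a row. A query box one of whose facets cuts through all of them
meets the bounding box of every node, and contains the bounding box of no node. Hence every node of
every R-tree is visited.
-/

open Finset

namespace Pool.Agent.Results.MP_4b5396_lc.AggregationLowerBound

/-! ### The definitions used in the statement -/

/-- A closed axis-parallel box `∏ [lo i, hi i]` in `ℝ ^ d`. -/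
@[ext]
structure Box (d : ℕ) where
  /-- The lower endpoints. -/
  lo : Fin d → ℝ
  /-- The upper endpoints. -/
  hi : Fin d → ℝ
  le : ∀ i, lo i ≤ hi i

variable {d : ℕ}

/-- The points of a box. -/
def Box.pts (b : Box d) : Set (Fin d → ℝ) := {q | ∀ i, b.lo i ≤ q i ∧ q i ≤ b.hi i}

/-- The box is a hypercube: all sides have the same length. -/
def Box.IsCube (b : Box d) : Prop := ∃ r : ℝ, ∀ i, b.hi i - b.lo i = r

/-- The minimal axis-parallel bounding box of a collection of boxes: the intersection of all boxes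
which contain every box of the collection. -/
def bounding (m : Multiset (Box d)) : Set (Fin d → ℝ) :=
  {q | ∀ b : Box d, (∀ s ∈ m, s.pts ⊆ b.pts) → q ∈ b.pts}

/-- Rooted trees of height `h`, with all leaves at depth `h`. A leaf stores a set of boxes; an
inner node has `k` children. -/
inductive Tree (d : ℕ) : ℕ → Type
  | leaf (objs : Finset (Box d)) : Tree d 0
  | node {h : ℕ} (k : ℕ) (child : Fin k → Tree d h) : Tree d (h + 1)

/-- The boxes stored in the leaves of a tree (with multiplicity). -/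
def elems : {h : ℕ} → Tree d h → Multiset (Box d)
  | _, .leaf s => s.val
  | _, .node _ child => ∑ i, elems (child i)

open Classical in
/-- The number of nodes visited when the aggregation query `Q` is answered: the root is visited; a
child `v` of a visited node is ignored if `R(v) ∩ Q = ∅`, it contributes its stored weight without
being visited if `R(v) ⊆ Q`, and it is visited otherwise. -/
noncomputable def cost : {h : ℕ} → Tree d h → Box d → ℕ
  | _, .leaf _, _ => 1
  | _, .node _ child, Q => 1 + ∑ i, if bounding (elems (child i)) ∩ Q.pts = ∅ ∨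
      bounding (elems (child i)) ⊆ Q.pts then 0 else cost (child i) Q

/-- The numbers of children (for a leaf, of stored boxes) of all nodes are between `c₁ B` and
`c₂ B`. -/
def NodeOk (c₁ c₂ : ℝ) (B : ℕ) : {h : ℕ} → Tree d h → Prop
  | _, .leaf s => c₁ * B ≤ s.card ∧ s.card ≤ c₂ * B
  | _, .node k child => c₁ * B ≤ k ∧ k ≤ c₂ * B ∧ ∀ i, NodeOk c₁ c₂ B (child i)

/-- The same, but the root is exempt from the lower bound. -/
def RootOk (c₁ c₂ : ℝ) (B : ℕ) : {h : ℕ} → Tree d h → Prop
  | _, .leaf s => s.card ≤ c₂ * B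
  | _, .node k child => k ≤ c₂ * B ∧ ∀ i, NodeOk c₁ c₂ B (child i)

/-- `t` is an R-tree on `S` with block size `B`: every box of `S` is stored exactly once, nothing
else is stored, and the numbers of children are between `c₁ B` and `c₂ B`. -/
def IsRTree (c₁ c₂ : ℝ) (B : ℕ) (S : Finset (Box d)) {h : ℕ} (t : Tree d h) : Prop :=
  elems t = S.val ∧ RootOk c₁ c₂ B t

/-- The number of nodes of a tree. -/
def numNodes : {h : ℕ} → Tree d h → ℕ
  | _, .leaf _ => 1
  | _, .node _ child => 1 + ∑ i, numNodes (child i)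

/-! ### The proof -/

lemma mem_elems_node {h k : ℕ} (child : Fin k → Tree d h) (s : Box d) :
    s ∈ elems (.node k child) ↔ ∃ i, s ∈ elems (child i) := by
  rw [elems, Multiset.mem_sum]
  simp

lemma exists_mem_elems {c₁ c₂ : ℝ} {B h : ℕ} (hB : 0 < c₁ * B) (t : Tree d h)
    (ht : NodeOk c₁ c₂ B t) : ∃ s, s ∈ elems t := by
  induction t with
  | leaf s =>
    rw [NodeOk] at ht
    have : (0 : ℝ) < s.card := hB.trans_le ht.1
    obtain ⟨b, hb⟩ := Finset.card_pos.1 (by exact_mod_cast this)
    exact ⟨b, by rw [elems]; exact hb⟩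
  | node k child ih =>
    rw [NodeOk] at ht
    have : (0 : ℝ) < k := hB.trans_le ht.1
    have hk : 0 < k := by exact_mod_cast this
    obtain ⟨s, hs⟩ := ih ⟨0, hk⟩ (ht.2.2 _)
    exact ⟨s, (mem_elems_node _ _).2 ⟨_, hs⟩⟩

lemma not_skipped {m : Multiset (Box d)} {s Q : Box d} (hs : s ∈ m)
    (h1 : (s.pts ∩ Q.pts).Nonempty) (h2 : ¬ s.pts ⊆ Q.pts) :
    ¬ (bounding m ∩ Q.pts = ∅ ∨ bounding m ⊆ Q.pts) := by
  have hsub : s.pts ⊆ bounding m := fun q hq b hb => hb s hs hq
  rintro (h | h)
  · obtain ⟨q, hq1, hq2⟩ := h1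
    have : q ∈ bounding m ∩ Q.pts := ⟨hsub hq1, hq2⟩
    rw [h] at this
    exact this
  · exact h2 (hsub.trans h)

lemma cost_eq_numNodes {c₁ c₂ : ℝ} {B h : ℕ} (hB : 0 < c₁ * B) (Q : Box d) (t : Tree d h)
    (ht : NodeOk c₁ c₂ B t)
    (hS : ∀ s ∈ elems t, (s.pts ∩ Q.pts).Nonempty ∧ ¬ s.pts ⊆ Q.pts) :
    cost t Q = numNodes t := by
  induction t with
  | leaf s => rw [cost, numNodes]
  | node k child ih =>
    rw [NodeOk] at ht
    rw [cost, numNodes]
    congr 1
    refine Finset.sum_congr rfl fun i _ => ?_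
    have hSi : ∀ s ∈ elems (child i), (s.pts ∩ Q.pts).Nonempty ∧ ¬ s.pts ⊆ Q.pts :=
      fun s hs => hS s ((mem_elems_node _ _).2 ⟨i, hs⟩)
    obtain ⟨s, hs⟩ := exists_mem_elems hB (child i) (ht.2.2 i)
    rw [if_neg (not_skipped hs (hSi s hs).1 (hSi s hs).2)]
    exact ih i (ht.2.2 i) hSi

lemma cost_root {c₁ c₂ : ℝ} {B h : ℕ} (hB : 0 < c₁ * B) (Q : Box d) (t : Tree d h)
    (ht : RootOk c₁ c₂ B t)
    (hS : ∀ s ∈ elems t, (s.pts ∩ Q.pts).Nonempty ∧ ¬ s.pts ⊆ Q.pts) :
    cost t Q = numNodes t := by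
  cases t with
  | leaf s => rw [cost, numNodes]
  | node k child =>
    rw [RootOk] at ht
    rw [cost, numNodes]
    congr 1
    refine Finset.sum_congr rfl fun i _ => ?_
    have hSi : ∀ s ∈ elems (child i), (s.pts ∩ Q.pts).Nonempty ∧ ¬ s.pts ⊆ Q.pts :=
      fun s hs => hS s ((mem_elems_node _ _).2 ⟨i, hs⟩)
    obtain ⟨s, hs⟩ := exists_mem_elems hB (child i) (ht.2 i)
    rw [if_neg (not_skipped hs (hSi s hs).1 (hSi s hs).2)]
    exact cost_eq_numNodes hB Q _ (ht.2 i) hSi

lemma card_elems_le {c₁ c₂ : ℝ} {B h : ℕ} (hc : 0 ≤ c₂ * B) (t : Tree d h)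
    (ht : NodeOk c₁ c₂ B t) : ((elems t).card : ℝ) ≤ c₂ * B * numNodes t := by
  induction t with
  | leaf s =>
    rw [NodeOk] at ht
    rw [elems, numNodes]
    simpa using ht.2
  | node k child ih =>
    rw [NodeOk] at ht
    rw [elems, numNodes, Multiset.card_sum]
    push_cast
    rw [mul_add, Finset.mul_sum]
    refine le_add_of_nonneg_of_le (by linarith) ?_
    exact Finset.sum_le_sum fun i _ => ih i (ht.2.2 i)

lemma card_elems_root {c₁ c₂ : ℝ} {B h : ℕ} (hc : 0 ≤ c₂ * B) (t : Tree d h)
    (ht : RootOk c₁ c₂ B t) : ((elems t).card : ℝ) ≤ c₂ * B * numNodes t := by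
  cases t with
  | leaf s =>
    rw [RootOk] at ht
    rw [elems, numNodes]
    simpa using ht
  | node k child =>
    rw [RootOk] at ht
    rw [elems, numNodes, Multiset.card_sum]
    push_cast
    rw [mul_add, Finset.mul_sum]
    refine le_add_of_nonneg_of_le (by linarith) ?_
    exact Finset.sum_le_sum fun i _ => card_elems_le hc _ (ht.2 i)

/-- The `j`-th unit cube of the row. -/
def cube (n j : ℕ) : Box (n + 2) where
  lo i := if i = 0 then 2 * (j : ℝ) else 0
  hi i := if i = 0 then 2 * (j : ℝ) + 1 else 1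
  le i := by split_ifs <;> linarith

/-- The query box. -/
noncomputable def query (n N : ℕ) : Box (n + 2) where
  lo _ := 0
  hi i := if i = 0 then 2 * (N : ℝ) + 1 else 1 / 2
  le i := by split_ifs <;> positivity

lemma cube_injective (n : ℕ) : Function.Injective (cube n) := by
  intro j k h
  have : (cube n j).lo 0 = (cube n k).lo 0 := by rw [h]
  simp only [cube, if_true] at this
  have h2 : (j : ℝ) = k := by linarith
  exact_mod_cast h2

/-- **Aggregation queries on R-trees.** Let `d ≥ 2`. For every `N` there are `N` pairwise disjoint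
unit cubes in `ℝ ^ d` and a query box `Q` such that for all block sizes `B ≥ 1`, every R-tree on
these cubes visits all its nodes, hence at least `N / (c₂ B)` nodes, when it answers `Q`.
Consequently, for no block size `B` there is a constant `C` such that every set of `N` cubes admits
an R-tree which answers every aggregation query with at most `C (N / B) ^ (1 - 1 / d)` I/Os. -/
theorem result (d : ℕ) (hd : 2 ≤ d) (c₁ c₂ : ℝ) (h₁ : 0 < c₁) (h₂ : 0 < c₂) :
    (∀ N : ℕ, ∃ S : Finset (Box d), S.card = N ∧ (∀ s ∈ S, ∀ i, s.hi i - s.lo i = 1) ∧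
      (∀ s ∈ S, ∀ s' ∈ S, s ≠ s' → Disjoint s.pts s'.pts) ∧
      ∃ Q : Box d, ∀ B : ℕ, 1 ≤ B → ∀ (h : ℕ) (t : Tree d h), IsRTree c₁ c₂ B S t →
        cost t Q = numNodes t ∧ (N : ℝ) / (c₂ * B) ≤ cost t Q) ∧
    ∀ B : ℕ, 1 ≤ B → ¬ ∃ C : ℝ, ∀ N : ℕ, 1 ≤ N → ∀ S : Finset (Box d), S.card = N →
      (∀ s ∈ S, s.IsCube) → ∃ (h : ℕ) (t : Tree d h), IsRTree c₁ c₂ B S t ∧
        ∀ Q : Box d, (cost t Q : ℝ) ≤ C * ((N : ℝ) / B) ^ (1 - 1 / (d : ℝ)) := by
  classical
  obtain ⟨n, rfl⟩ : ∃ n, d = n + 2 := ⟨d - 2, by omega⟩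
  have main : ∀ N : ℕ, ∃ S : Finset (Box (n + 2)), S.card = N ∧
      (∀ s ∈ S, ∀ i, s.hi i - s.lo i = 1) ∧
      (∀ s ∈ S, ∀ s' ∈ S, s ≠ s' → Disjoint s.pts s'.pts) ∧
      ∃ Q : Box (n + 2), ∀ B : ℕ, 1 ≤ B → ∀ (h : ℕ) (t : Tree (n + 2) h), IsRTree c₁ c₂ B S t →
        cost t Q = numNodes t ∧ (N : ℝ) / (c₂ * B) ≤ cost t Q := by
    intro N
    refine ⟨(Finset.range N).image (cube n), ?_, ?_, ?_, query n N, fun B hB h t ht => ?_⟩
    · rw [Finset.card_image_of_injective _ (cube_injective n), Finset.card_range]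
    · intro s hs i
      obtain ⟨j, -, rfl⟩ := Finset.mem_image.1 hs
      simp only [cube]
      split_ifs <;> ring
    · intro s hs s' hs' hne
      obtain ⟨j, -, rfl⟩ := Finset.mem_image.1 hs
      obtain ⟨k, -, rfl⟩ := Finset.mem_image.1 hs'
      rw [Set.disjoint_left]
      intro q hq hq'
      have h3 := hq 0
      have h4 := hq' 0
      simp only [cube, if_true] at h3 h4
      have h5 : (j : ℝ) < k + 1 := by linarith
      have h6 : (k : ℝ) < j + 1 := by linarith
      have h7 : j < k + 1 := by exact_mod_cast h5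
      have h8 : k < j + 1 := by exact_mod_cast h6
      exact hne (by rw [show j = k by omega])
    · have hB' : (0 : ℝ) < B := by exact_mod_cast hB
      obtain ⟨hel, hroot⟩ := ht
      have hS : ∀ s ∈ elems t, (s.pts ∩ (query n N).pts).Nonempty ∧ ¬ s.pts ⊆ (query n N).pts := by
        intro s hs
        rw [hel] at hs
        obtain ⟨j, hj, rfl⟩ := Finset.mem_image.1 (show s ∈ (Finset.range N).image (cube n) from hs)
        have hjN : (j : ℝ) < N := by exact_mod_cast Finset.mem_range.1 hj
        constructor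
        · refine ⟨(cube n j).lo, fun i => ⟨le_rfl, (cube n j).le i⟩, fun i => ?_⟩
          simp only [cube, query]
          split_ifs
          · constructor
            · positivity
            · linarith
          · norm_num
        · intro hsub
          have := (hsub (show (cube n j).hi ∈ (cube n j).pts from
            fun i => ⟨(cube n j).le i, le_rfl⟩) 1).2
          simp only [cube, query] at this
          rw [if_neg (by simp), if_neg (by simp)] at this
          norm_num at this
      have hcost := cost_root (by positivity) (query n N) t hroot hS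
      refine ⟨hcost, ?_⟩
      rw [div_le_iff₀ (by positivity), hcost]
      have h3 := card_elems_root (by positivity) t hroot
      have h4 : (elems t).card = N := by
        rw [hel, Finset.card_val, Finset.card_image_of_injective _ (cube_injective n),
          Finset.card_range]
      rw [h4] at h3
      linarith
  refine ⟨main, fun B hB => ?_⟩
  rintro ⟨C, hC⟩
  set D : ℝ := ((n + 2 : ℕ) : ℝ) with hD
  have hDpos : 0 < D := by rw [hD]; positivity
  have hB' : (0 : ℝ) < B := by exact_mod_cast hB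
  obtain ⟨K, hK⟩ := exists_nat_gt (max 1 (C * c₂))
  have hK1 : (1 : ℝ) < K := (le_max_left _ _).trans_lt hK
  have hK2 : C * c₂ < K := (le_max_right _ _).trans_lt hK
  have hKpos : (0 : ℝ) < K := by linarith
  have hKpos' : 0 < K := by exact_mod_cast hKpos
  set N : ℕ := B * K ^ (n + 2) with hN
  have hN1 : 1 ≤ N := Nat.one_le_iff_ne_zero.2 (by positivity)
  obtain ⟨S, hS, hunit, -, Q, hQ⟩ := main N
  obtain ⟨h, t, ht, hcost⟩ := hC N hN1 S hS fun s hs => ⟨1, hunit s hs⟩
  have h5 := (hQ B hB h t ht).2.trans (hcost Q)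
  have hNB : (N : ℝ) / B = (K : ℝ) ^ (n + 2) := by
    rw [hN]
    push_cast
    field_simp
  have hroot : ((K : ℝ) ^ (n + 2)) ^ (1 / D) = K := by
    rw [one_div]
    exact Real.pow_rpow_inv_natCast hKpos.le (by omega)
  have h6 : ((N : ℝ) / B) ^ (1 - 1 / D) = (K : ℝ) ^ (n + 2) / K := by
    rw [hNB, Real.rpow_sub (by positivity), Real.rpow_one, hroot]
  have h9 : (N : ℝ) / (c₂ * B) = (K : ℝ) ^ (n + 2) / c₂ := by
    rw [← hNB]
    field_simp
  rw [h6, h9, div_le_iff₀ h₂] at h5
  have h7 : C * ((K : ℝ) ^ (n + 2) / K) * c₂ = (K : ℝ) ^ (n + 2) * ((C * c₂) / K) := by ring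
  rw [h7] at h5
  have h8 : (C * c₂) / K < 1 := by rwa [div_lt_one hKpos]
  have h10 : (0 : ℝ) < (K : ℝ) ^ (n + 2) := by positivity
  nlinarith

end Pool.Agent.Results.MP_4b5396_lc.AggregationLowerBound
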